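import Mathlib
import Pool.Agent.X69.AvoidEnforce

/-! Enforcer wins as last player on linear rank-3 hypergraphs of minimum degree at least 10. -/

namespace Pool.Agent.Results.MP_8d7a8d_co.MinDegreeTen

open Pool.Agent.X69.AvoidEnforce

/-- There is a constant `d` (in fact `d = 10` works) such that for every nonempty finite linear
hypergraph of rank 3 with minimum degree at least `d`, Enforcer wins as last player. -/
theorem result : ∀ (V : Type) [Fintype V] [DecidableEq V] [Nonempty V] (E : Finset (Finset V)),
    (∀ A ∈ E, A.card ≤ 3) →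
    (∀ A ∈ E, ∀ B ∈ E, A ≠ B → (A ∩ B).card ≤ 1) →
    (∀ v : V, 10 ≤ (E.filter (fun A => v ∈ A)).card) →
    EnforcerWinsLast E :=
  fun _ _ _ _ E hE hlin hdeg => main E hE hlin hdeg

end Pool.Agent.Results.MP_8d7a8d_co.MinDegreeTen
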